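import Pool.Agent.R936.BSC.Defs
set_option autoImplicit false

/-!
# Motivic cohomology in negative degrees: the complex numbers suffice
-/

open CategoryTheory AlgebraicGeometry

namespace Pool.Agent.R936.BSC

open Pool.Agent.R388.BS

/-- the residue fields of a complex scheme have characteristic zero -/
theorem charZero_residueField (X : CSch) (x : X.left) : CharZero (X.left.residueField x) := by
  let f : CommRingCat.of ℂ ⟶ X.left.residueField x :=
    Spec.preimage (X.left.fromSpecResidueField x ≫ X.hom)
  let φ : ℂ →+* X.left.residueField x := f.hom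
  exact charZero_of_injective_ringHom φ.injective

variable {T : FieldCohomology} {V : VarietyCohomology} {𝒮 : Set CSch}

theorem fieldVanishes_of_complex (hT : IsMotivic T) {m n : ℤ} (hm : m < 0)
    (h : FieldVanishes T ℂ m n) (F : Type) [Field F] [CharZero F] : FieldVanishes T F m n := by
  obtain ⟨g⟩ := exists_ratHom_complex
  intro k hk
  exact zero_of_closed (k := ℚ) hT (by omega) g (h k hk)

theorem varieties_of_complex (hT : IsMotivic T) (hV : IsComputedByPoints T V 𝒮) {m n : ℤ}
    (hm : m < 0) (h : FieldVanishes T ℂ m n) : VarietiesVanish V 𝒮 m n := by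
  obtain ⟨g⟩ := exists_ratHom_complex
  intro X hX k hk
  refine hV.coniveau X hX k n fun x p _ => ?_
  have hx : CharZero (X.left.residueField x) := charZero_residueField X x
  have h1 := of_closed (k := ℚ) hT (i := k - p) (n := n) (by omega) g (h _ (by omega)) p
    (X.left.residueField x)
  have e : k - (p : ℤ) - p = k - 2 * p := by ring
  rwa [e] at h1

theorem complex_iff_rat (hT : IsMotivic T) {k n : ℤ} (hk : k < 0) (hn : 0 < n) :
    Zero T (Rat ℚ) (k + 1) (n + 1) ↔ ∀ (F : Type) [Field F] [CharZero F], Zero T F k n := by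
  have h := unbounded (k := ℚ) hT (i := k + 1) (n := n + 1) (by omega)
    (hT.rat (k + 1) (n + 1) (by omega) (by omega))
  simp only [add_sub_cancel_right] at h
  rw [h]
  constructor
  · intro h1 F _ _
    exact h1 F
  · intro h1 F _ _
    have : CharZero F := algebraRat.charZero F
    exact h1 F

/-- Weight by weight. -/
theorem tfae_weight (hT : IsMotivic T) (hV : IsComputedByPoints T V 𝒮) {m n : ℤ} (hm : m < 0)
    (hn : 0 < n) :
    List.TFAE [VarietiesVanish V 𝒮 m n, FieldVanishes T ℂ m n,
      ∀ (F : Type) [Field F] [CharZero F], FieldVanishes T F m n,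
      FieldVanishes T (Rat ℚ) (m + 1) (n + 1)] := by
  tfae_have 1 → 2 := fun h k hk => hV.of_point k n (h point hV.point_mem k hk)
  tfae_have 2 → 1 := varieties_of_complex hT hV hm
  tfae_have 2 → 3 := fun h F _ _ => fieldVanishes_of_complex hT hm h F
  tfae_have 3 → 2 := fun h => h ℂ
  tfae_have 3 → 4 := fun h k hk => by
    have h1 := (complex_iff_rat hT (k := k - 1) (by omega) hn).2 fun F _ _ => h F (k - 1) (by omega)
    rwa [sub_add_cancel] at h1
  tfae_have 4 → 3 := fun h F _ _ k hk =>
    (complex_iff_rat hT (by omega) hn).1 (h (k + 1) (by omega)) F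
  tfae_finish

/-- All weights and all negative degrees. -/
theorem tfae_all (hT : IsMotivic T) (hV : IsComputedByPoints T V 𝒮) :
    List.TFAE [∀ n > 0, VarietiesVanish V 𝒮 (-1) n, ∀ n > 0, FieldVanishes T ℂ (-1) n,
      ∀ n > 0, Zero T ℂ (-1) n, ∀ n > 1, Zero T (Rat ℚ) 0 n] := by
  tfae_have 1 ↔ 2 := forall₂_congr fun n hn => (tfae_weight hT hV (m := -1) (by omega) hn).out 0 1
  tfae_have 2 → 3 := fun h n hn => h n hn (-1) le_rfl
  tfae_have 3 → 4 := fun h n hn => by
    obtain ⟨g⟩ := exists_ratHom_complex
    have h1 := (complex_iff_rat hT (k := -1) (n := n - 1) (by omega) (by omega)).2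
      fun F _ _ => zero_of_closed (k := ℚ) hT (by omega) g (h (n - 1) (by omega))
    have e1 : (-1 : ℤ) + 1 = 0 := by ring
    rwa [e1, sub_add_cancel] at h1
  tfae_have 4 → 2 := fun h n hn k hk =>
    of_rat (k := ℚ) hT (fun n hn => hT.rat 0 n le_rfl (by omega)) h ℂ (by omega) (by omega)
  tfae_finish

end Pool.Agent.R936.BSC
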