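import Pool.Agent.R388.BS.Final
set_option autoImplicit false

/-!
# Motivic cohomology of complex varieties and of their residue fields: definitions
-/

open CategoryTheory AlgebraicGeometry

namespace Pool.Agent.R936.BSC

open Pool.Agent.R388.BS

/-- Schemes over the complex numbers. -/
abbrev CSch : Type 1 := Over (Spec (CommRingCat.of ℂ))

/-- The point `Spec ℂ`, as a scheme over `ℂ`. -/
noncomputable abbrev point : CSch := Over.mk (𝟙 (Spec (CommRingCat.of ℂ)))

/-- Groups `H X k n = H^k(X, n)` for schemes `X` over `ℂ`. -/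
structure VarietyCohomology where
  /-- the group `H^k(X, n)` -/
  H : CSch → ℤ → ℤ → Type
  [group : ∀ X k n, AddCommGroup (H X k n)]

attribute [instance] VarietyCohomology.group

/-- `H^k(X, n) = 0`. -/
def VanishesOn (V : VarietyCohomology) (X : CSch) (k n : ℤ) : Prop := ∀ a : V.H X k n, a = 0

/-- The point `x` of the scheme `X` has codimension `p`. -/
def HasCodim (X : Scheme.{0}) (x : X) (p : ℕ) : Prop :=
  ringKrullDim (X.presheaf.stalk x) = (p : WithBot ℕ∞)

/-- The relations between the cohomology of the schemes in the class `𝒮` and of their residue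
fields: `Spec ℂ` belongs to the class, its cohomology is the one of the field `ℂ`, and (spectral
sequence of the coniveau filtration) if `H^(k - 2 p)(κ(x), n - p) = 0` for all points `x` of `X`,
`p` being the codimension of `x`, then `H^k(X, n) = 0`. -/
structure IsComputedByPoints (T : FieldCohomology) (V : VarietyCohomology) (𝒮 : Set CSch) :
    Prop where
  point_mem : point ∈ 𝒮
  of_point : ∀ k n : ℤ, VanishesOn V point k n → Zero T ℂ k n
  coniveau : ∀ X ∈ 𝒮, ∀ k n : ℤ,
    (∀ (x : X.left) (p : ℕ), HasCodim X.left x p →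
      Zero T (X.left.residueField x) (k - 2 * p) (n - p)) → VanishesOn V X k n

/-- In weight `n`, all groups `H^k(X, n)` with `k ≤ m` vanish, for all `X` in `𝒮`. -/
def VarietiesVanish (V : VarietyCohomology) (𝒮 : Set CSch) (m n : ℤ) : Prop :=
  ∀ X ∈ 𝒮, ∀ k ≤ m, VanishesOn V X k n

/-- In weight `n`, all groups `H^k(F, n)` with `k ≤ m` vanish. -/
def FieldVanishes (T : FieldCohomology) (F : Type) [Field F] (m n : ℤ) : Prop :=
  ∀ k ≤ m, Zero T F k n

end Pool.Agent.R936.BSC
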